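import Pool.Agent.EGF.Stmts

/-!
# Squad EGF, row TYP (helper20): typical vertices
-/

set_option autoImplicit false

open Finset

namespace Pool.Agent.EGF.H20

variable {V : Type} [DecidableEq V] {k : ℕ}

/-- the number of exceptional pairs, counted by the first vertex -/
theorem ex_card_left (c : V → V → Fin k) (C : Finset (Fin k)) (A B : Finset V) :
    ((ex c C A B).card : ℝ) = ∑ x ∈ A, (((B.filter fun y => c x y ∉ C).card : ℕ) : ℝ) := by
  unfold ex
  rw [Finset.card_filter, Finset.sum_product]
  push_cast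
  refine Finset.sum_congr rfl fun x _ => ?_
  rw [Finset.card_filter]
  push_cast
  rfl

/-- the number of exceptional pairs, counted by the second vertex -/
theorem ex_card_right (c : V → V → Fin k) (C : Finset (Fin k)) (A B : Finset V) :
    ((ex c C A B).card : ℝ) = ∑ y ∈ B, (((A.filter fun x => c x y ∉ C).card : ℕ) : ℝ) := by
  unfold ex
  rw [Finset.card_filter, Finset.sum_product_right]
  push_cast
  refine Finset.sum_congr rfl fun x _ => ?_
  rw [Finset.card_filter]
  push_cast
  rfl

theorem typ : TypStmt := by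
  classical
  intro V _ k c C A B A' B' lam ρ hR hρ hA hB
  constructor
  · intro hB'
    obtain ⟨Z, hZ⟩ : ∃ Z : Finset V, Z = A'.filter fun x =>
      lam * (B'.card : ℝ) < ((B'.filter fun y => c x y ∉ C).card : ℝ) := ⟨_, rfl⟩
    have hZA : Z ⊆ A' := by rw [hZ]; exact Finset.filter_subset _ _
    refine ⟨Z, hZA, ?_, ?_⟩
    · by_contra hcon
      have hcon' : ρ * (A.card : ℝ) < (Z.card : ℝ) := not_le.mp hcon
      have hpos : (0 : ℝ) < (Z.card : ℝ) :=
        lt_of_le_of_lt (mul_nonneg hρ (Nat.cast_nonneg _)) hcon'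
      have hne : Z.Nonempty := by
        rw [← Finset.card_pos]
        exact_mod_cast hpos
      have h1 := hR Z (hZA.trans hA) B' hB hcon'.le hB'
      rw [ex_card_left] at h1
      have h2 : ∑ x ∈ Z, lam * (B'.card : ℝ) <
          ∑ x ∈ Z, (((B'.filter fun y => c x y ∉ C).card : ℕ) : ℝ) := by
        refine Finset.sum_lt_sum_of_nonempty hne fun x hx => ?_
        rw [hZ, Finset.mem_filter] at hx
        exact hx.2
      rw [Finset.sum_const, nsmul_eq_mul] at h2
      nlinarith
    · intro x hx
      rw [Finset.mem_sdiff] at hx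
      by_contra hcon
      apply hx.2
      rw [hZ, Finset.mem_filter]
      exact ⟨hx.1, not_le.mp hcon⟩
  · intro hA'
    obtain ⟨Z, hZ⟩ : ∃ Z : Finset V, Z = B'.filter fun y =>
      lam * (A'.card : ℝ) < ((A'.filter fun x => c x y ∉ C).card : ℝ) := ⟨_, rfl⟩
    have hZB : Z ⊆ B' := by rw [hZ]; exact Finset.filter_subset _ _
    refine ⟨Z, hZB, ?_, ?_⟩
    · by_contra hcon
      have hcon' : ρ * (B.card : ℝ) < (Z.card : ℝ) := not_le.mp hcon
      have hpos : (0 : ℝ) < (Z.card : ℝ) :=
        lt_of_le_of_lt (mul_nonneg hρ (Nat.cast_nonneg _)) hcon'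
      have hne : Z.Nonempty := by
        rw [← Finset.card_pos]
        exact_mod_cast hpos
      have h1 := hR A' hA Z (hZB.trans hB) hA' hcon'.le
      rw [ex_card_right] at h1
      have h2 : ∑ y ∈ Z, lam * (A'.card : ℝ) <
          ∑ y ∈ Z, (((A'.filter fun x => c x y ∉ C).card : ℕ) : ℝ) := by
        refine Finset.sum_lt_sum_of_nonempty hne fun y hy => ?_
        rw [hZ, Finset.mem_filter] at hy
        exact hy.2
      rw [Finset.sum_const, nsmul_eq_mul] at h2
      nlinarith
    · intro y hy
      rw [Finset.mem_sdiff] at hy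
      by_contra hcon
      apply hy.2
      rw [hZ, Finset.mem_filter]
      exact ⟨hy.1, not_le.mp hcon⟩

end Pool.Agent.EGF.H20
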